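import Pool.Agent.helper4.HL.Spec

/-! # HL, module DOM: the measure dominates one half of the Lebesgue measure -/

open scoped BigOperators ComplexOrder ComplexConjugate Topology

namespace Pool.Agent.HL

open Pool.Agent.helper86.CM Pool.Agent.QS Filter MeasureTheory

noncomputable section

theorem DOM_chr_cont (n : Lat 1) : Continuous (chr n) := by
  unfold chr
  exact (UnitAddTorus.mFourier n).continuous

theorem DOM_pol_cont (S : Finset (Lat 1)) (p : Lat 1 → ℂ) (f : Lat 1 → Lat 1) :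
    Continuous fun y : T2 => ‖∑ n ∈ S, p n * chr (f n) y‖ ^ 2 :=
  (continuous_norm.comp (continuous_finsetSum _ fun n _ =>
    continuous_const.mul (DOM_chr_cont (f n)))).pow 2

theorem DOM_intg {g : T2 → ℝ} (hg : Continuous g) (μ : Measure T2) [IsProbabilityMeasure μ] :
    Integrable g μ := by
  obtain ⟨C, hC⟩ := (isCompact_range hg).isBounded.exists_norm_le
  exact Integrable.of_bound hg.aestronglyMeasurable C
    (Filter.Eventually.of_forall fun y => hC _ ⟨y, rfl⟩)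

theorem DOM (hBMP : BMP_stmt) (hERG : ERG_stmt) (hIVM : IVM_stmt) : DOM_stmt := by
  intro B t hB μ hμ hC hinv S p
  obtain ⟨C, hC0, hE⟩ := hERG B t hB S p
  set g0 : ℝ := ∑ n ∈ S, ‖p n‖ ^ 2 with hg0
  set I : ℝ := ∫ y, ‖∑ n ∈ S, p n * chr n y‖ ^ 2 ∂μ with hI
  have hI0 : 0 ≤ I := integral_nonneg fun y => by positivity
  have hg00 : 0 ≤ g0 := Finset.sum_nonneg fun n _ => by positivity
  rcases hg00.eq_or_lt with h0 | hpos
  · rw [← h0]
    simpa using hI0
  -- the key inequality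
  have key : ∀ δ : ℝ, 0 < δ → δ ≤ g0 → δ ≤ 1 → (g0 - δ) * (1 / 2 - 4 * Real.sqrt δ) ≤ I := by
    intro δ hδ hδg hδ1
    have hq : 0 < δ * (δ / 2) ^ 2 := by positivity
    obtain ⟨l, hl⟩ := exists_nat_gt (C / (δ * (δ / 2) ^ 2))
    have hl0 : (0 : ℝ) < l := lt_of_le_of_lt (by positivity) hl
    have hl1 : 1 ≤ l := by
      have : 0 < l := by exact_mod_cast hl0
      omega
    set G : T2 → ℝ := fun y => (l : ℝ)⁻¹ * ∑ s ∈ Finset.range l,
      ‖∑ n ∈ S, p n * chr (pw B (s : ℤ) n) y‖ ^ 2 with hG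
    have hGc : Continuous G :=
      continuous_const.mul (continuous_finsetSum _ fun s _ => DOM_pol_cont S p (pw B (s : ℤ)))
    have h1 : ∫ y, (G y - g0) ^ 2 ≤ δ * (δ / 2) ^ 2 := by
      refine (hE l hl1).trans ?_
      rw [div_le_iff₀ hl0]
      rw [div_lt_iff₀ hq] at hl
      linarith [mul_comm (l : ℝ) (δ * (δ / 2) ^ 2)]
    have h2 := hBMP μ hμ hC G hGc (fun y => by positivity) g0 δ δ hδ hδg hδ.le hδ1 h1
    refine h2.trans (le_of_eq ?_)
    have h3 : ∫ y, G y ∂μ = (l : ℝ)⁻¹ * ∑ s ∈ Finset.range l,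
        ∫ y, ‖∑ n ∈ S, p n * chr (pw B (s : ℤ) n) y‖ ^ 2 ∂μ := by
      rw [hG, integral_const_mul, integral_finsetSum]
      intro s _
      exact DOM_intg (DOM_pol_cont S p (pw B (s : ℤ))) μ
    rw [h3, Finset.sum_congr rfl fun s _ => hIVM B μ hμ hinv S p s, Finset.sum_const,
      Finset.card_range, nsmul_eq_mul, ← mul_assoc, inv_mul_cancel₀ hl0.ne', one_mul]
  -- the limit
  have hlim : Tendsto (fun δ : ℝ => (g0 - δ) * (1 / 2 - 4 * Real.sqrt δ)) (𝓝[>] 0)
      (𝓝 (1 / 2 * g0)) := by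
    have hc : Continuous fun δ : ℝ => (g0 - δ) * (1 / 2 - 4 * Real.sqrt δ) :=
      (continuous_const.sub continuous_id).mul
        (continuous_const.sub (continuous_const.mul Real.continuous_sqrt))
    have h := (hc.tendsto 0).mono_left (nhdsWithin_le_nhds (s := Set.Ioi (0 : ℝ)))
    have e : (g0 - 0) * (1 / 2 - 4 * Real.sqrt 0) = 1 / 2 * g0 := by
      rw [Real.sqrt_zero]
      ring
    rwa [e] at h
  refine le_of_tendsto hlim ?_
  have hmin : 0 < min g0 1 := lt_min hpos one_pos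
  filter_upwards [Ioo_mem_nhdsGT hmin] with δ hδ
  exact key δ hδ.1 (hδ.2.le.trans (min_le_left _ _)) (hδ.2.le.trans (min_le_right _ _))

end

end Pool.Agent.HL
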