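import Pool.Agent.helper4.HL.Spec

/-! # HL, module SPL: splitting off one half of the Lebesgue measure -/

open scoped BigOperators ComplexOrder ComplexConjugate Topology

namespace Pool.Agent.HL

open Pool.Agent.helper86.CM Pool.Agent.QS Filter MeasureTheory

noncomputable section

theorem SPL_chr_cont (n : Lat 1) : Continuous (chr n) := by
  unfold chr
  exact (UnitAddTorus.mFourier n).continuous

theorem SPL_intg {g : T2 → ℂ} (hg : Continuous g) (μ : Measure T2) [IsProbabilityMeasure μ] :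
    Integrable g μ := by
  obtain ⟨C, hC⟩ := (isCompact_range hg).isBounded.exists_norm_le
  exact Integrable.of_bound hg.aestronglyMeasurable C
    (Filter.Eventually.of_forall fun y => hC _ ⟨y, rfl⟩)

theorem SPL_chr_zero (y : T2) : chr (0 : Lat 1) y = 1 := by
  unfold chr
  rw [UnitAddTorus.mFourier_zero]
  rfl

theorem SPL_chr_neg (n : Lat 1) (y : T2) : chr (-n) y = conj (chr n y) := by
  unfold chr
  rw [UnitAddTorus.mFourier_neg]

theorem SPL_chr_sub (n m : Lat 1) (y : T2) : chr (m - n) y = conj (chr n y) * chr m y := by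
  rw [← SPL_chr_neg]
  unfold chr
  rw [sub_eq_add_neg, UnitAddTorus.mFourier_add, mul_comm]

/-- The function `2 F - [n = 0]`. -/
def SPL_F (μ : Measure T2) (n : Lat 1) : ℂ := 2 * ∫ y, chr n y ∂μ - (if n = 0 then 1 else 0)

theorem SPL_conj (μ : Measure T2) (n : Lat 1) : SPL_F μ (-n) = conj (SPL_F μ n) := by
  unfold SPL_F
  simp only [SPL_chr_neg, neg_eq_zero, map_sub, map_mul]
  rw [integral_conj]
  have h2 : (starRingEnd ℂ) (2 : ℂ) = 2 := map_ofNat _ 2
  rw [h2]
  by_cases h : n = 0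
  · simp [h]
  · simp [h]

/-- The integral of the square of a trigonometric polynomial. -/
theorem SPL_sq (μ : Measure T2) [IsProbabilityMeasure μ] (m : ℕ) (x : Fin m → Lat 1)
    (c : Fin m → ℂ) : ((∫ y, ‖∑ i, c i * chr (x i) y‖ ^ 2 ∂μ : ℝ) : ℂ) =
      ∑ i, ∑ j, conj (c i) * c j * ∫ y, chr (x j - x i) y ∂μ := by
  have h1 : ∀ y : T2, ((‖∑ i, c i * chr (x i) y‖ ^ 2 : ℝ) : ℂ) =
      ∑ i, ∑ j, conj (c i) * c j * chr (x j - x i) y := by
    intro y
    have h2 : ((‖∑ i, c i * chr (x i) y‖ ^ 2 : ℝ) : ℂ) =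
        conj (∑ i, c i * chr (x i) y) * ∑ i, c i * chr (x i) y := by
      rw [← Complex.normSq_eq_conj_mul_self, Complex.normSq_eq_norm_sq]
    rw [h2, map_sum, Finset.sum_mul]
    refine Finset.sum_congr rfl fun i _ => ?_
    rw [Finset.mul_sum]
    refine Finset.sum_congr rfl fun j _ => ?_
    rw [SPL_chr_sub, map_mul]
    ring
  have h5 : ((∫ y, ‖∑ i, c i * chr (x i) y‖ ^ 2 ∂μ : ℝ) : ℂ) =
      ∫ y : T2, (((‖∑ i, c i * chr (x i) y‖ ^ 2 : ℝ)) : ℂ) ∂μ := integral_ofReal.symm
  rw [h5]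
  have h3 : (fun y : T2 => (((‖∑ i, c i * chr (x i) y‖ ^ 2 : ℝ)) : ℂ)) =
      fun y => ∑ i, ∑ j, conj (c i) * c j * chr (x j - x i) y := funext h1
  have h4 : ∫ y : T2, (((‖∑ i, c i * chr (x i) y‖ ^ 2 : ℝ)) : ℂ) ∂μ =
      ∫ y : T2, ∑ i, ∑ j, conj (c i) * c j * chr (x j - x i) y ∂μ := by
    rw [h3]
  refine Eq.trans h4 ?_
  rw [integral_finsetSum]
  · refine Finset.sum_congr rfl fun i _ => ?_
    rw [integral_finsetSum]
    · refine Finset.sum_congr rfl fun j _ => ?_
      rw [integral_const_mul]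
    · intro j _
      exact SPL_intg (continuous_const.mul (SPL_chr_cont _)) μ
  · intro i _
    exact SPL_intg (continuous_finsetSum _ fun j _ => continuous_const.mul (SPL_chr_cont _)) μ

open Classical in
/-- The coefficient of the frequency `n`. -/
def SPL_p {m : ℕ} (x : Fin m → Lat 1) (c : Fin m → ℂ) (n : Lat 1) : ℂ :=
  ∑ i, if x i = n then c i else 0

open Classical in
theorem SPL_pol {m : ℕ} (x : Fin m → Lat 1) (c : Fin m → ℂ) (g : Lat 1 → ℂ) :
    ∑ n ∈ Finset.univ.image x, SPL_p x c n * g n = ∑ i, c i * g (x i) := by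
  unfold SPL_p
  simp only [Finset.sum_mul]
  rw [Finset.sum_comm]
  refine Finset.sum_congr rfl fun i _ => ?_
  rw [Finset.sum_eq_single (x i)]
  · rw [if_pos rfl]
  · intro b _ hb
    rw [if_neg (Ne.symm hb), zero_mul]
  · intro h
    exact absurd (Finset.mem_image_of_mem x (Finset.mem_univ i)) h

open Classical in
theorem SPL_nrm {m : ℕ} (x : Fin m → Lat 1) (c : Fin m → ℂ) :
    ((∑ n ∈ Finset.univ.image x, ‖SPL_p x c n‖ ^ 2 : ℝ) : ℂ) =
      ∑ i, ∑ j, conj (c i) * c j * (if x j - x i = 0 then 1 else 0) := by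
  have h1 : ((∑ n ∈ Finset.univ.image x, ‖SPL_p x c n‖ ^ 2 : ℝ) : ℂ) =
      ∑ n ∈ Finset.univ.image x, SPL_p x c n * conj (SPL_p x c n) := by
    push_cast
    refine Finset.sum_congr rfl fun n _ => ?_
    rw [Complex.mul_conj, Complex.normSq_eq_norm_sq]
    push_cast
    rfl
  rw [h1, SPL_pol x c fun n => conj (SPL_p x c n)]
  rw [Finset.sum_comm]
  refine Finset.sum_congr rfl fun j _ => ?_
  unfold SPL_p
  rw [map_sum, Finset.mul_sum]
  refine Finset.sum_congr rfl fun i _ => ?_
  by_cases h : x i = x j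
  · simp [h, mul_comm]
  · have h' : ¬ (x j - x i = 0) := fun h0 => h (sub_eq_zero.mp h0).symm
    rw [if_neg h, if_neg h', map_zero]
    ring

theorem SPL (hDOM : DOM_stmt) (hBOC : BOC_stmt) : SPL_stmt := by
  classical
  intro B t hB μ hμ hC hinv
  have hF0 : SPL_F μ 0 = 1 := by
    unfold SPL_F
    simp only [SPL_chr_zero]
    norm_num
  have hpos : ∀ (m : ℕ) (x : Fin m → Lat 1),
      (Matrix.of fun i j : Fin m => SPL_F μ (x j - x i)).PosSemidef := by
    intro m x
    refine Matrix.PosSemidef.of_dotProduct_mulVec_nonneg ?_ ?_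
    · ext i j
      rw [Matrix.conjTranspose_apply, Matrix.of_apply, Matrix.of_apply, ← neg_sub (x j) (x i),
        SPL_conj]
      exact star_star _
    · intro c
      have h1 : star c ⬝ᵥ (Matrix.of fun i j : Fin m => SPL_F μ (x j - x i)).mulVec c =
          ((2 * (∫ y, ‖∑ i, c i * chr (x i) y‖ ^ 2 ∂μ) -
            ∑ n ∈ Finset.univ.image x, ‖SPL_p x c n‖ ^ 2 : ℝ) : ℂ) := by
        rw [Complex.ofReal_sub, Complex.ofReal_mul, SPL_sq, SPL_nrm, Finset.mul_sum,
          ← Finset.sum_sub_distrib]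
        simp only [dotProduct, Matrix.mulVec, Matrix.of_apply, Pi.star_apply]
        refine Finset.sum_congr rfl fun i _ => ?_
        rw [Finset.mul_sum, Finset.mul_sum, ← Finset.sum_sub_distrib]
        refine Finset.sum_congr rfl fun j _ => ?_
        unfold SPL_F
        push_cast
        rw [starRingEnd_apply]
        ring
      rw [h1]
      refine Complex.zero_le_real.mpr ?_
      have h2 := hDOM B t hB μ hμ hC hinv (Finset.univ.image x) (SPL_p x c)
      have h3 : ∀ y : T2, ∑ n ∈ Finset.univ.image x, SPL_p x c n * chr n y =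
          ∑ i, c i * chr (x i) y := fun y => SPL_pol x c fun n => chr n y
      simp only [h3] at h2
      linarith
  obtain ⟨ν, hν, hνF⟩ := hBOC (SPL_F μ) hF0 hpos
  refine ⟨ν, hν, fun n => ?_, fun n => ?_⟩
  · rw [hνF, hνF]
    unfold SPL_F
    rw [hinv n]
    have h1 : (B n = 0) ↔ (n = 0) := by
      exact map_eq_zero_iff B B.injective
    simp only [h1]
  · rw [hνF]
    unfold SPL_F
    by_cases h : n = 0
    · simp only [h, if_true]
      ring
    · simp only [h, if_false]
      ring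

end

end Pool.Agent.HL
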